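import Pool.Agent.Lib.MP_8cf036_co_h80.Final
import Pool.Agent.Lib.MP_8cf036_co_h19.Lower
import Pool.Agent.Lib.MP_8cf036_co_h19.Upper

/-!
# Ramsey numbers of tight paths versus cliques, every uniformity

For every `k ≥ 3` and every `s ≥ k + 1` the Ramsey number of the `k`-uniform tight path with `s`
edges versus the `k`-uniform clique on `t` vertices is `Θ(t ^ (k - 1))`.
-/

set_option autoImplicit false

open Asymptotics

namespace Pool.Agent.Results.MP_8cf036_co.TightPathRamsey

/-- The tight path `P_s^(k)`: its vertices are `0, 1, …, s + k - 2`, its edges are the `s` sets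
`{i, i + 1, …, i + k - 1}` with `i < s`. -/
def tightPath (k s : ℕ) : Set (Finset (Fin (s + k - 1))) :=
  {e | ∃ i < s, ∀ j : Fin (s + k - 1), j ∈ e ↔ i ≤ (j : ℕ) ∧ (j : ℕ) < i + k}

/-- The complete `k`-graph `K_t^(k)`: all `k`-element subsets of a set of `t` vertices. -/
def complete (k t : ℕ) : Set (Finset (Fin t)) :=
  {e | e.card = k}

/-- The edge set `E` contains a copy of `F`. -/
def HasCopy {m n : ℕ} (F : Set (Finset (Fin m))) (E : Set (Finset (Fin n))) : Prop :=
  ∃ f : Fin m ↪ Fin n, ∀ e ∈ F, e.map f ∈ E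

/-- Every red/blue colouring of the edges of `K_N^(k)` (`R` is the set of the red edges, `B` the set
of the blue edges) contains a red copy of `F` or a blue copy of `G`. -/
def Arrows (k N : ℕ) {a b : ℕ} (F : Set (Finset (Fin a))) (G : Set (Finset (Fin b))) : Prop :=
  ∀ R B : Set (Finset (Fin N)), R ∪ B = complete k N → Disjoint R B → HasCopy F R ∨ HasCopy G B

/-- The Ramsey number `r_k(F, G)`: the least `N` with the arrow property. -/
noncomputable def ramsey (k : ℕ) {a b : ℕ} (F : Set (Finset (Fin a)))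
    (G : Set (Finset (Fin b))) : ℕ :=
  sInf {N | Arrows k N F G}

theorem copy_path {k s n : ℕ} (H : Set (Finset (Fin n))) :
    HasCopy (tightPath k s) H ↔ ∃ v : Fin (s + k - 1) → Fin n, Function.Injective v ∧
      ∀ i : Fin s, (Finset.univ.filter (fun j : Fin (s + k - 1) =>
        i.val ≤ j.val ∧ j.val < i.val + k)).image v ∈ H := by
  constructor
  · rintro ⟨f, hf⟩
    refine ⟨f, f.injective, fun i => ?_⟩
    rw [← Finset.map_eq_image]
    exact hf _ ⟨i, i.2, fun j => by simp⟩
  · rintro ⟨v, hv, h⟩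
    refine ⟨⟨v, hv⟩, ?_⟩
    rintro e ⟨i, hi, he⟩
    have h1 : e = Finset.univ.filter (fun j : Fin (s + k - 1) =>
        (⟨i, hi⟩ : Fin s).val ≤ j.val ∧ j.val < (⟨i, hi⟩ : Fin s).val + k) := by
      ext j
      rw [he j]
      simp
    rw [h1, Finset.map_eq_image]
    exact h ⟨i, hi⟩

theorem arrows_iff {k s t n : ℕ} :
    Arrows k n (tightPath k s) (complete k t) ↔ ∀ H : Set (Finset (Fin n)),
      (∃ v : Fin (s + k - 1) → Fin n, Function.Injective v ∧
        ∀ i : Fin s,
          (Finset.univ.filter (fun j : Fin (s + k - 1) =>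
              i.val ≤ j.val ∧ j.val < i.val + k)).image v ∈ H) ∨
      (∃ S : Finset (Fin n), S.card = t ∧
        ∀ e : Finset (Fin n), e ⊆ S → e.card = k → e ∉ H) := by
  constructor
  · intro h H
    have h1 : H ∩ complete k n ∪ (complete k n \ H) = complete k n := by
      ext e
      simp only [Set.mem_union, Set.mem_inter_iff, Set.mem_sdiff]
      tauto
    have h2 : Disjoint (H ∩ complete k n) (complete k n \ H) := by
      rw [Set.disjoint_left]
      exact fun e he he' => he'.2 he.1
    rcases h _ _ h1 h2 with h3 | ⟨g, hg⟩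
    · obtain ⟨v, hv, h4⟩ := (copy_path _).1 h3
      exact Or.inl ⟨v, hv, fun i => (h4 i).1⟩
    · refine Or.inr ⟨Finset.univ.map g, by simp, fun e he hek => ?_⟩
      obtain ⟨e', -, rfl⟩ := Finset.subset_map_iff.1 he
      rw [Finset.card_map] at hek
      exact (hg e' hek).2
  · intro h R B hRB hd
    rcases h R with h3 | ⟨S, hS, h4⟩
    · exact Or.inl ((copy_path R).2 h3)
    · refine Or.inr ⟨(S.orderEmbOfFin hS).toEmbedding, fun e he => ?_⟩
      have h5 : e.map (S.orderEmbOfFin hS).toEmbedding ⊆ S := by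
        intro x hx
        obtain ⟨y, -, rfl⟩ := Finset.mem_map.1 hx
        exact Finset.orderEmbOfFin_mem S hS y
      have h6 : (e.map (S.orderEmbOfFin hS).toEmbedding).card = k := by
        rw [Finset.card_map]
        exact he
      have h7 : e.map (S.orderEmbOfFin hS).toEmbedding ∈ R ∪ B := by
        rw [hRB]
        exact h6
      exact h7.resolve_left (h4 _ h5 h6)

/-- A longer tight path contains a shorter one. -/
theorem arrows_mono {k s s' t n : ℕ} (hk : 1 ≤ k) (hs : s ≤ s')
    (h : Arrows k n (tightPath k s') (complete k t)) :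
    Arrows k n (tightPath k s) (complete k t) := by
  intro R B hRB hd
  rcases h R B hRB hd with ⟨f, hf⟩ | h1
  · left
    have hle : s + k - 1 ≤ s' + k - 1 := by omega
    refine ⟨(Fin.castLEEmb hle).trans f, ?_⟩
    rintro e ⟨i, hi, he⟩
    rw [← Finset.map_map]
    refine hf _ ⟨i, hi.trans_le hs, fun j => ?_⟩
    rw [Finset.mem_map]
    constructor
    · rintro ⟨x, hx, rfl⟩
      exact (he x).1 hx
    · intro hj
      have hj' : (j : ℕ) < s + k - 1 := by omega
      exact ⟨⟨j, hj'⟩, (he _).2 hj, by ext; rfl⟩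
  · exact Or.inr h1

theorem arrows_upper {k s t n : ℕ} (hk : 2 ≤ k) (hs : 1 ≤ s) (ht : 1 ≤ t)
    (hn : s * 2 ^ k * t ^ (k - 1) ≤ n) : Arrows k n (tightPath k s) (complete k t) := by
  rw [arrows_iff]
  exact Pool.Agent.Lib.MP_8cf036_co_h19.upper hk hs t n ht (by exact_mod_cast hn)

/-- For every `k ≥ 3` there are a constant `c > 0` and a number `T`, depending only on `k`, such
that for every `s ≥ k + 1`: the Ramsey number `r = r_k(P_s^(k), K_t^(k))` is attained for every `t`
(the minimum is over a nonempty set), `c t^(k-1) ≤ r` for all `t ≥ T`, `r ≤ s 2^k t^(k-1)` for all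
`t ≥ 1`, and so `r = Θ(t^(k-1))` as `t → ∞`. -/
theorem result (k : ℕ) (hk : 3 ≤ k) :
    ∃ c : ℝ, 0 < c ∧ ∃ T : ℕ, ∀ s : ℕ, k + 1 ≤ s →
      (∀ t : ℕ, Arrows k (ramsey k (tightPath k s) (complete k t))
        (tightPath k s) (complete k t)) ∧
      (∀ t : ℕ, T ≤ t →
        c * (t : ℝ) ^ (k - 1) ≤ (ramsey k (tightPath k s) (complete k t) : ℝ)) ∧
      (∀ t : ℕ, 1 ≤ t →
        (ramsey k (tightPath k s) (complete k t) : ℝ) ≤ s * 2 ^ k * (t : ℝ) ^ (k - 1)) ∧
      (fun t : ℕ => (ramsey k (tightPath k s) (complete k t) : ℝ)) =Θ[Filter.atTop]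
        (fun t : ℕ => (t : ℝ) ^ (k - 1)) := by
  obtain ⟨A, hA, hcon⟩ := Pool.Agent.Lib.MP_8cf036_co_h80.construction_all k hk
  obtain ⟨c, hc, T, hT⟩ :=
    Pool.Agent.Lib.MP_8cf036_co_h19.lower (by omega) hA hcon (le_refl (k + 1))
  refine ⟨c, hc, T, fun s hs => ?_⟩
  have hne : ∀ t : ℕ, {N | Arrows k N (tightPath k s) (complete k t)}.Nonempty := by
    intro t
    rcases Nat.eq_zero_or_pos t with rfl | ht
    · refine ⟨0, fun R B _ _ => Or.inr ⟨Function.Embedding.refl _, fun e he => ?_⟩⟩
      have h1 : e.card = k := he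
      have h2 : e.card ≤ 0 := by
        have := e.card_le_univ
        simpa using this
      omega
    · exact ⟨_, arrows_upper (by omega) (by omega) ht le_rfl⟩
  have hmem : ∀ t : ℕ, Arrows k (ramsey k (tightPath k s) (complete k t))
      (tightPath k s) (complete k t) := fun t => Nat.sInf_mem (hne t)
  have hlow : ∀ t : ℕ, T ≤ t →
      c * (t : ℝ) ^ (k - 1) ≤ (ramsey k (tightPath k s) (complete k t) : ℝ) := by
    intro t ht
    by_contra hcon
    exact hT t ht _ (not_le.1 hcon).le (arrows_iff.1 (arrows_mono (by omega) hs (hmem t)))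
  have hup : ∀ t : ℕ, 1 ≤ t →
      (ramsey k (tightPath k s) (complete k t) : ℝ) ≤ s * 2 ^ k * (t : ℝ) ^ (k - 1) := by
    intro t ht
    have h1 : ramsey k (tightPath k s) (complete k t) ≤ s * 2 ^ k * t ^ (k - 1) :=
      Nat.sInf_le (arrows_upper (by omega) (by omega) ht le_rfl)
    exact_mod_cast h1
  refine ⟨hmem, hlow, hup, ?_, ?_⟩
  · refine IsBigO.of_bound (s * 2 ^ k) ?_
    filter_upwards [Filter.eventually_ge_atTop 1] with t ht
    rw [Real.norm_of_nonneg (Nat.cast_nonneg _), Real.norm_of_nonneg (by positivity)]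
    exact hup t ht
  · refine IsBigO.of_bound c⁻¹ ?_
    filter_upwards [Filter.eventually_ge_atTop T] with t ht
    rw [Real.norm_of_nonneg (Nat.cast_nonneg _), Real.norm_of_nonneg (by positivity)]
    rw [inv_mul_eq_div, le_div_iff₀ hc, mul_comm]
    exact hlow t ht

end Pool.Agent.Results.MP_8cf036_co.TightPathRamsey
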